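import Pool.Agent.H225R3.CubeFinal

open Pool.Agent.H225R3.Cube

namespace Pool.Agent.Results.MP_67b01c_gt.NoExtension

/-- There is a locally finite CAT(0) cube complex of dimension at most three with a cocompact group
action such that for every `1 < p < ∞`, `p ≠ 2`, the identity does not extend to a homeomorphism of
the compactifications for `p` and `2`. -/
theorem result : ∃ (H : Type) (V : Set (H → Bool)) (o : H → ℝ), IsCAT0 V ∧ IsLocallyFinite V ∧
    (∀ v A, IsCube V v A → A.card ≤ 3) ∧ IsCocompact V ∧ o ∈ Space V ∧
    ∀ p : ℝ, 1 < p → p ≠ 2 → ¬ IdExtends V o p 2 :=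
  cube_main

end Pool.Agent.Results.MP_67b01c_gt.NoExtension
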